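import Pool.Agent.Lib.MP_0b6b0e_gt.ZB.Defs

/-!
Module GN: a generic gauge function is smooth, has no common subgradient with its reflection and
is rich in flat scales and ridge scales.
-/

set_option autoImplicit false

open Set Filter Topology MeasureTheory

open scoped InnerProductSpace

namespace Pool.Agent.Lib.MP_0b6b0e_gt.ZB.H38

/-- `Ridge` is monotone in `k`. -/
theorem ridge_mono {E : Type*} [NormedAddCommGroup E] [InnerProductSpace ℝ E] {P : E → ℝ}
    {x w : E} {k k' : ℝ} (hk : k ≤ k') (h : Ridge P x w k) : Ridge P x w k' := by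
  obtain ⟨r, b, hr, hb, hrb, hbk, l, l', hl⟩ := h
  refine ⟨r, b, hr, hb, hrb.trans (mul_le_mul_of_nonneg_right hk hb.le), hbk.trans hk, l, l',
    fun y hy => ?_⟩
  obtain ⟨h1, h2⟩ := hl y hy
  have h3 : k * r ^ 2 ≤ k' * r ^ 2 := mul_le_mul_of_nonneg_right hk (sq_nonneg r)
  exact ⟨h1.trans h3, h2.trans h3⟩

/-- `Ridge` for all `1 / (m + 1)` gives `Ridge` for all positive `k`. -/
theorem ridge_all {E : Type*} [NormedAddCommGroup E] [InnerProductSpace ℝ E] {P : E → ℝ}
    {x w : E} (h : ∀ m : ℕ, Ridge P x w (1 / ((m : ℝ) + 1))) (k : ℝ) (hk : 0 < k) :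
    Ridge P x w k := by
  obtain ⟨m, hm⟩ := exists_nat_one_div_lt hk
  exact ridge_mono hm.le (h m)

/-- Countably many ridge conditions hold for a generic body. -/
theorem ridge_generic (hTP : TPStatement) (hRG : RGStatement) (n : ℕ)
    (x w : EuclideanSpace ℝ (Fin n)) (hx : x ≠ 0) (hw : ⟪w, x⟫_ℝ = 0) :
    ∀ᶠ K : Body n in residual (Body n), ∀ k : ℝ, 0 < k → Ridge (gf K) x w k := by
  have h : ∀ᶠ K : Body n in residual (Body n), ∀ m : ℕ, Ridge (gf K) x w (1 / ((m : ℝ) + 1)) := by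
    rw [eventually_countable_forall]
    intro m
    exact hTP n (fun P => Ridge P x w (1 / ((m : ℝ) + 1)))
      (hRG n x w (1 / ((m : ℝ) + 1)) hx hw (by positivity))
  filter_upwards [h] with K hK k hk
  exact ridge_all hK k hk

/-- The projection of the `j`-th unit vector to the hyperplane orthogonal to `x`. -/
noncomputable def wv {n : ℕ} (x : EuclideanSpace ℝ (Fin n)) (j : Fin n) :
    EuclideanSpace ℝ (Fin n) :=
  EuclideanSpace.single j (1 : ℝ) - (⟪EuclideanSpace.single j (1 : ℝ), x⟫_ℝ / ‖x‖ ^ 2) • x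

theorem wv_inner_self {n : ℕ} {x : EuclideanSpace ℝ (Fin n)} (hx : x ≠ 0) (j : Fin n) :
    ⟪wv x j, x⟫_ℝ = 0 := by
  have h : ‖x‖ ^ 2 ≠ 0 := pow_ne_zero 2 (norm_ne_zero_iff.2 hx)
  unfold wv
  rw [inner_sub_left, real_inner_smul_left, real_inner_self_eq_norm_sq, div_mul_cancel₀ _ h,
    sub_self]

theorem wv_inner {n : ℕ} {x v : EuclideanSpace ℝ (Fin n)} (hv : ⟪x, v⟫_ℝ = 0) (j : Fin n) :
    ⟪wv x j, v⟫_ℝ = v j := by
  unfold wv
  rw [inner_sub_left, real_inner_smul_left, hv, mul_zero, sub_zero]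
  simp [EuclideanSpace.inner_single_left]

/-- Module GN. -/
theorem gn (hTP : TPStatement) (hSM : SMStatement) (hNCA : NCAStatement) (hNCB : NCBStatement)
    (hRG : RGStatement) : GNStatement := by
  intro n hn
  have h1 := hSM n
  have h2 : ∀ᶠ K : Body n in residual (Body n), NoCommon (gf K) := by
    apply hTP n NoCommon
    intro P hP ε hε
    obtain ⟨P', hP', hclose, hNC⟩ := hNCB n hn P hP ε hε
    obtain ⟨δ, hδ, hall⟩ := hNCA n P' hP' hNC
    exact ⟨P', hP', hclose, δ, hδ, hall⟩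
  obtain ⟨X, hXc, hXd⟩ := TopologicalSpace.exists_countable_dense (EuclideanSpace ℝ (Fin n))
  have h3 : ∀ᶠ K : Body n in residual (Body n), ∀ x ∈ X, x ≠ 0 →
      (∀ k : ℝ, 0 < k → Ridge (gf K) x 0 k) ∧
      (∀ j : Fin n, ∀ k : ℝ, 0 < k → Ridge (gf K) x (wv x j) k) ∧
      (∀ j : Fin n, ∀ k : ℝ, 0 < k → Ridge (gf K) (-x) (wv x j) k) := by
    rw [eventually_countable_ball hXc]
    intro x _
    by_cases hx : x = 0
    · exact Eventually.of_forall fun K hx' => absurd hx hx'
    · have a1 := ridge_generic hTP hRG n x 0 hx (inner_zero_left _)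
      have a2 : ∀ᶠ K : Body n in residual (Body n), ∀ j : Fin n, ∀ k : ℝ, 0 < k →
          Ridge (gf K) x (wv x j) k := by
        rw [eventually_countable_forall]
        intro j
        exact ridge_generic hTP hRG n x (wv x j) hx (wv_inner_self hx j)
      have a3 : ∀ᶠ K : Body n in residual (Body n), ∀ j : Fin n, ∀ k : ℝ, 0 < k →
          Ridge (gf K) (-x) (wv x j) k := by
        rw [eventually_countable_forall]
        intro j
        apply ridge_generic hTP hRG n (-x) (wv x j) (neg_ne_zero.2 hx)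
        rw [inner_neg_right, wv_inner_self hx j, neg_zero]
      filter_upwards [a1, a2, a3] with K b1 b2 b3 _
      exact ⟨b1, b2, b3⟩
  filter_upwards [h1, h2, h3] with K c1 c2 c3
  refine ⟨c1, c2, X, hXd, fun x hx hx0 => ?_⟩
  obtain ⟨d1, d2, d3⟩ := c3 x hx hx0
  refine ⟨d1, fun v hv hxv => ?_⟩
  obtain ⟨j, hj⟩ : ∃ j, v j ≠ 0 := by
    by_contra hcon
    push Not at hcon
    apply hv
    ext j
    simpa using hcon j
  exact ⟨wv x j, by rw [wv_inner hxv]; exact hj, d2 j, d3 j⟩

/-- Module GN, in the form of the board. -/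
theorem GN : TPStatement → SMStatement → NCAStatement → NCBStatement → RGStatement →
    GBStatement → GNStatement :=
  fun a b c d e _ => gn a b c d e

end Pool.Agent.Lib.MP_0b6b0e_gt.ZB.H38
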